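import Mathlib
import Pool.Agent.V11319.TP.Count

/-!
# The transversal probability is not always attained by a cyclic `p`-subgroup of index `≤ p` over its core

For a double coset `H g H` with `m` left (and `m` right) cosets, every left coset meets every right coset in
`|H| / m` elements, so `P_G(H)` is the product of the numbers `m! / m ^ m` over the double cosets (`P_eq`).

Let `G = A ⋊ ⟨t⟩`, `A = C₄ × C₄`, `t` of order `8` acting by `(i, j) ↦ (j, i + 2 j)` (an automorphism of order
`4`). All involutions of `G` lie in `Ω₁(A) × ⟨t⁴⟩`, on which `t²` acts trivially; so they have at most two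
conjugates, and `P_G(H) ≥ 2 ^ (-16)` for all subgroups of order `2`. If the core of `H` has index `≤ 2` in `H` and
`|H| ≥ 4`, then every double coset has `m ≤ 2` and the number of those with `m = 2` is at most `128 / 8 = 16`,
hence `P_G(H) ≥ 2 ^ (-16)` again. But the subgroup `H = C₄ × 1` of `A` has `4` double cosets with `m = 2` and `4` with
`m = 4`, so `P_G(H) = (1/2) ^ 4 (3/32) ^ 4 = 81 / 2 ^ 24 < 2 ^ (-16)`.
-/

set_option autoImplicit false

namespace Pool.Agent.Results.MP_443384_al.NotPrimeIndex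

open Function Pool.Agent.V11319.TP

variable {G : Type} [Group G]

/-- `T` contains exactly one element of every left coset `g H`. -/
def IsLeftTransversal (H : Subgroup G) (T : Set G) : Prop := ∀ g : G, ∃! t : G, t ∈ T ∧ g⁻¹ * t ∈ H

/-- `T` contains exactly one element of every right coset `H g`. -/
def IsRightTransversal (H : Subgroup G) (T : Set G) : Prop := ∀ g : G, ∃! t : G, t ∈ T ∧ t * g⁻¹ ∈ H

/-- `P_G(H)`: the number of the double transversals, divided by `|H| ^ (G : H)`. -/
noncomputable def P (H : Subgroup G) : ℝ :=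
  (Nat.card {T : Set G // IsLeftTransversal H T ∧ IsRightTransversal H T} : ℝ) /
    (Nat.card H : ℝ) ^ H.index

variable (G) in
/-- The transversal probability of `G`, the least of the numbers `P_G(H)`, `H ≤ G`. -/
noncomputable def tp : ℝ := ⨅ H : Subgroup G, P H

section general

variable (H : Subgroup G)

/-- the left cosets -/
abbrev X := G ⧸ H
/-- the right cosets -/
abbrev Y := Quotient (QuotientGroup.rightRel H)

/-- the double coset relation -/
def dc : Setoid G where
  r a b := ∃ h₁ ∈ H, ∃ h₂ ∈ H, b = h₁ * a * h₂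
  iseqv :=
    { refl := fun a => ⟨1, H.one_mem, 1, H.one_mem, by group⟩
      symm := by
        rintro a b ⟨h₁, m₁, h₂, m₂, rfl⟩
        exact ⟨h₁⁻¹, H.inv_mem m₁, h₂⁻¹, H.inv_mem m₂, by group⟩
      trans := by
        rintro a b c ⟨h₁, m₁, h₂, m₂, rfl⟩ ⟨h₃, m₃, h₄, m₄, rfl⟩
        exact ⟨h₃ * h₁, H.mul_mem m₃ m₁, h₂ * h₄, H.mul_mem m₂ m₄, by group⟩ }

/-- the double cosets -/
abbrev D := Quotient (dc H)

/-- the left coset of `g` -/
def l (g : G) : X H := QuotientGroup.mk g
/-- the right coset of `g` -/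
def r (g : G) : Y H := Quotient.mk _ g
/-- the double coset of `g` -/
def d (g : G) : D H := Quotient.mk _ g

lemma l_eq (a b : G) : l H a = l H b ↔ a⁻¹ * b ∈ H := QuotientGroup.eq

lemma r_eq (a b : G) : r H a = r H b ↔ b * a⁻¹ ∈ H := by
  unfold r
  rw [Quotient.eq, QuotientGroup.rightRel_apply]

lemma d_eq (a b : G) : d H a = d H b ↔ ∃ h₁ ∈ H, ∃ h₂ ∈ H, b = h₁ * a * h₂ := by
  unfold d
  rw [Quotient.eq]
  rfl

/-- the double coset of a left coset -/
def dX : X H → D H := Quotient.lift (d H) (by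
  intro a b h
  rw [d_eq]
  have h' : a⁻¹ * b ∈ H := QuotientGroup.leftRel_apply.1 h
  exact ⟨1, H.one_mem, a⁻¹ * b, h', by group⟩)

/-- the double coset of a right coset -/
def dY : Y H → D H := Quotient.lift (d H) (by
  intro a b h
  rw [d_eq]
  have h' : b * a⁻¹ ∈ H := QuotientGroup.rightRel_apply.1 h
  exact ⟨b * a⁻¹, h', 1, H.one_mem, by group⟩)

lemma dX_l (g : G) : dX H (l H g) = d H g := rfl
lemma dY_r (g : G) : dY H (r H g) = d H g := rfl

lemma l_surj (x : X H) : ∃ g, l H g = x := Quotient.exists_rep x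
lemma r_surj (y : Y H) : ∃ g, r H g = y := Quotient.exists_rep y
lemma d_surj (δ : D H) : ∃ g, d H g = δ := Quotient.exists_rep δ

variable [Finite G]

/-- the double transversals as functions -/
lemma card_DT : Nat.card {T : Set G // IsLeftTransversal H T ∧ IsRightTransversal H T} =
    Nat.card {f : X H → G // (∀ x, l H (f x) = x) ∧ Injective (fun x => r H (f x))} := by
  have hL : ∀ T : Set G, IsLeftTransversal H T → ∀ x : X H, ∃! t, t ∈ T ∧ l H t = x := by
    intro T hT x
    obtain ⟨g, rfl⟩ := l_surj H x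
    obtain ⟨t, ht, hu⟩ := hT g
    exact ⟨t, ⟨ht.1, ((l_eq H g t).2 ht.2).symm⟩, fun t' h => hu t' ⟨h.1, (l_eq H g t').1 h.2.symm⟩⟩
  choose! F hF hFu using fun (T : Set G) (hT : IsLeftTransversal H T) (x : X H) => hL T hT x
  have hcard : Nat.card (X H) = Nat.card (Y H) :=
    Nat.card_congr (QuotientGroup.quotientRightRelEquivQuotientLeftRel H).symm
  have : Finite (X H) := inferInstance
  have : Finite (Y H) := inferInstance
  refine Nat.card_congr
    { toFun := fun T => ⟨F T.1, fun x => (hF T.1 T.2.1 x).2, fun x y h => ?_⟩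
      invFun := fun f => ⟨Set.range f.1, ?_, ?_⟩
      left_inv := ?_
      right_inv := ?_ }
  · have h1 : F T.1 x = F T.1 y := by
      obtain ⟨t, ht, hu⟩ := T.2.2 (F T.1 x)
      rw [hu (F T.1 x) ⟨(hF T.1 T.2.1 x).1, by rw [mul_inv_cancel]; exact H.one_mem⟩,
        hu (F T.1 y) ⟨(hF T.1 T.2.1 y).1, (r_eq H _ _).1 h⟩]
    rw [← (hF T.1 T.2.1 x).2, ← (hF T.1 T.2.1 y).2, h1]
  · intro g
    refine ⟨f.1 (l H g), ⟨⟨_, rfl⟩, (l_eq H _ _).1 (f.2.1 _).symm⟩, ?_⟩
    rintro _ ⟨⟨x, rfl⟩, hx⟩
    rw [← l_eq, f.2.1] at hx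
    rw [hx]
  · intro g
    have hbij : Bijective (fun x => r H (f.1 x)) :=
      (Nat.bijective_iff_injective_and_card _).2 ⟨f.2.2, hcard⟩
    obtain ⟨x, hx⟩ := hbij.2 (r H g)
    refine ⟨f.1 x, ⟨⟨_, rfl⟩, (r_eq H _ _).1 hx.symm⟩, ?_⟩
    rintro _ ⟨⟨y, rfl⟩, hy⟩
    rw [← r_eq] at hy
    rw [f.2.2 (show r H (f.1 y) = r H (f.1 x) from hy.symm.trans hx.symm)]
  · rintro ⟨T, hT⟩
    apply Subtype.ext
    ext t
    constructor
    · rintro ⟨x, rfl⟩
      exact (hF T hT.1 x).1
    · intro ht
      exact ⟨l H t, (hFu T hT.1 (l H t) t ⟨ht, rfl⟩).symm⟩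
  · rintro ⟨f, hf⟩
    apply Subtype.ext
    funext x
    have hLT : IsLeftTransversal H (Set.range f) := by
      intro g
      refine ⟨f (l H g), ⟨⟨_, rfl⟩, (l_eq H _ _).1 (hf.1 _).symm⟩, ?_⟩
      rintro _ ⟨⟨x, rfl⟩, hx⟩
      rw [← l_eq, hf.1] at hx
      rw [hx]
    exact (hFu (Set.range f) hLT x (f x) ⟨⟨x, rfl⟩, hf.1 x⟩).symm

omit [Finite G] in
lemma inter_eq {g u v : G} (hu : d H g = d H u) (hv : d H g = d H v) :
    Nat.card {e // l H e = l H u ∧ r H e = r H v} = Nat.card {e // l H e = l H g ∧ r H e = r H g} := by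
  obtain ⟨h₁, m₁, h₂, m₂, rfl⟩ := (d_eq H _ _).1 hu
  obtain ⟨h₃, m₃, h₄, m₄, rfl⟩ := (d_eq H _ _).1 hv
  symm
  refine Nat.card_congr
    { toFun := fun e => ⟨h₁ * e.1 * h₄, ?_, ?_⟩
      invFun := fun e => ⟨h₁⁻¹ * e.1 * h₄⁻¹, ?_, ?_⟩
      left_inv := fun e => Subtype.ext (by simp only; group)
      right_inv := fun e => Subtype.ext (by simp only; group) }
  · rw [l_eq]
    have h := (l_eq H _ _).1 e.2.1
    have : (h₁ * e.1 * h₄)⁻¹ * (h₁ * g * h₂) = h₄⁻¹ * (e.1⁻¹ * g) * h₂ := by group
    rw [this]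
    exact H.mul_mem (H.mul_mem (H.inv_mem m₄) h) m₂
  · rw [r_eq]
    have h := (r_eq H _ _).1 e.2.2
    have : h₃ * g * h₄ * (h₁ * e.1 * h₄)⁻¹ = h₃ * (g * e.1⁻¹) * h₁⁻¹ := by group
    rw [this]
    exact H.mul_mem (H.mul_mem m₃ h) (H.inv_mem m₁)
  · rw [l_eq]
    have h := (l_eq H _ _).1 e.2.1
    have : (h₁⁻¹ * e.1 * h₄⁻¹)⁻¹ * g = h₄ * (e.1⁻¹ * (h₁ * g * h₂)) * h₂⁻¹ := by group
    rw [this]
    exact H.mul_mem (H.mul_mem m₄ h) (H.inv_mem m₂)
  · rw [r_eq]
    have h := (r_eq H _ _).1 e.2.2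
    have : g * (h₁⁻¹ * e.1 * h₄⁻¹)⁻¹ = h₃⁻¹ * (h₃ * g * h₄ * e.1⁻¹) * h₁ := by group
    rw [this]
    exact H.mul_mem (H.mul_mem (H.inv_mem m₃) h) m₁

/-- the number of the elements common to a left and a right coset of a double coset -/
noncomputable def cc (δ : D H) : ℕ :=
  Nat.card {e // l H e = l H δ.out ∧ r H e = r H δ.out}

/-- the number of the left cosets in a double coset -/
noncomputable def mm (δ : D H) : ℕ := Nat.card {x : X H // dX H x = δ}

omit [Finite G] in
lemma d_out (δ : D H) : d H δ.out = δ := Quotient.out_eq δ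

omit [Finite G] in
lemma cc_d (g : G) : cc H (d H g) = Nat.card {e // l H e = l H g ∧ r H e = r H g} := by
  unfold cc
  exact inter_eq H (d_out H _).symm (d_out H _).symm

lemma cc_eq (x : X H) (y : Y H) (h : dX H x = dY H y) :
    Nat.card {e // l H e = x ∧ r H e = y} = cc H (dX H x) := by
  obtain ⟨u, rfl⟩ := l_surj H x
  obtain ⟨v, rfl⟩ := r_surj H y
  rw [dX_l, dY_r] at h
  rw [dX_l, cc_d]
  exact inter_eq H rfl h

omit [Finite G] in
lemma card_l (x : X H) : Nat.card {e // l H e = x} = Nat.card H := by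
  obtain ⟨g, rfl⟩ := l_surj H x
  symm
  exact Nat.card_congr
    { toFun := fun h => ⟨g * h.1, ((l_eq H g (g * h.1)).2 (by
        rw [inv_mul_cancel_left]; exact h.2)).symm⟩
      invFun := fun e => ⟨g⁻¹ * e.1, (l_eq H g e.1).1 e.2.symm⟩
      left_inv := fun h => Subtype.ext (by simp)
      right_inv := fun e => Subtype.ext (by simp) }

omit [Finite G] in
lemma card_r (y : Y H) : Nat.card {e // r H e = y} = Nat.card H := by
  obtain ⟨g, rfl⟩ := r_surj H y
  symm
  exact Nat.card_congr
    { toFun := fun h => ⟨h.1 * g, ((r_eq H g (h.1 * g)).2 (by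
        rw [mul_inv_cancel_right]; exact h.2)).symm⟩
      invFun := fun e => ⟨e.1 * g⁻¹, (r_eq H g e.1).1 e.2.symm⟩
      left_inv := fun h => Subtype.ext (by simp)
      right_inv := fun e => Subtype.ext (by simp) }

lemma mm_mul_cc (δ : D H) : mm H δ * cc H δ = Nat.card H := by
  obtain ⟨g, rfl⟩ := d_surj H δ
  have h := card_fib {e | r H e = r H g} {x : X H | dX H x = d H g} (l H)
    (fun e he => by
      change dX H (l H e) = d H g
      rw [dX_l, ← dY_r, (show r H e = r H g from he), dY_r]) (cc H (d H g))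
    (fun x hx => by
      have hx' : dX H x = d H g := hx
      rw [← hx', ← cc_eq H x (r H g) (by rw [hx', dY_r])]
      exact Nat.card_congr (Equiv.subtypeEquivRight fun e => and_comm))
  rw [← card_r H (r H g)]
  exact h.symm

lemma yy_mul_cc (δ : D H) : Nat.card {y : Y H // dY H y = δ} * cc H δ = Nat.card H := by
  obtain ⟨g, rfl⟩ := d_surj H δ
  have h := card_fib {e | l H e = l H g} {y : Y H | dY H y = d H g} (r H)
    (fun e he => by
      change dY H (r H e) = d H g
      rw [dY_r, ← dX_l, (show l H e = l H g from he), dX_l]) (cc H (d H g))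
    (fun y hy => by
      have hy' : dY H y = d H g := hy
      rw [← dX_l, ← cc_eq H (l H g) y (by rw [hy', dX_l])]
      rfl)
  rw [← card_l H (l H g)]
  exact h.symm

lemma card_pos' : 0 < Nat.card H := Nat.card_pos

lemma cc_pos (δ : D H) : 0 < cc H δ := by
  rcases Nat.eq_zero_or_pos (cc H δ) with h | h
  · have := mm_mul_cc H δ
    rw [h, mul_zero] at this
    exact absurd this (card_pos' H).ne
  · exact h

lemma mm_pos (δ : D H) : 0 < mm H δ := by
  rcases Nat.eq_zero_or_pos (mm H δ) with h | h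
  · have := mm_mul_cc H δ
    rw [h, zero_mul] at this
    exact absurd this (card_pos' H).ne
  · exact h

lemma yy_eq (δ : D H) : Nat.card {y : Y H // dY H y = δ} = mm H δ :=
  Nat.eq_of_mul_eq_mul_right (cc_pos H δ) ((yy_mul_cc H δ).trans (mm_mul_cc H δ).symm)

/-- the contribution of a double coset with `m` left cosets -/
noncomputable def φ (m : ℕ) : ℝ := m.factorial / (m : ℝ) ^ m

/-- the formula for `P_G(H)` -/
theorem P_eq [Fintype (D H)] : P H = ∏ δ : D H, φ (mm H δ) := by
  classical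
  have hX : Finite (X H) := inferInstance
  have hY : Finite (Y H) := inferInstance
  have h1 : H.index = ∑ δ : D H, mm H δ := by
    have e : X H ≃ Σ δ : D H, {x : X H // dX H x = δ} := (Equiv.sigmaFiberEquiv (dX H)).symm
    have : H.index = Nat.card (X H) := rfl
    rw [this, Nat.card_congr e, Nat.card_sigma]
    rfl
  unfold P
  rw [card_DT, count_all (l H) (r H) (dX H) (dY H) (fun e => rfl) (cc H) (mm H) (cc_eq H)
    (fun δ => rfl) (yy_eq H), h1, ← Finset.prod_pow_eq_pow_sum, Nat.cast_prod, ← Finset.prod_div_distrib]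
  refine Finset.prod_congr rfl fun δ _ => ?_
  have h2 : (0 : ℝ) < cc H δ := by exact_mod_cast cc_pos H δ
  have h3 : (0 : ℝ) < mm H δ := by exact_mod_cast mm_pos H δ
  rw [← mm_mul_cc H δ, φ]
  push_cast
  rw [mul_pow]
  field_simp

/-- the number of the elements of a double coset -/
lemma card_d (δ : D H) : Nat.card {g // d H g = δ} = mm H δ * Nat.card H := by
  exact card_fib {g | d H g = δ} {x : X H | dX H x = δ} (l H) (fun e he => he) (Nat.card H)
    (fun x hx => by
      rw [← card_l H x]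
      refine Nat.card_congr (Equiv.subtypeEquivRight fun e => ⟨fun h => h.2, fun h => ⟨?_, h⟩⟩)
      change d H e = δ
      rw [← dX_l, h]
      exact hx)

/-- the number of the double cosets with `i` left cosets -/
lemma card_mm (i : ℕ) : Nat.card {g // mm H (d H g) = i} =
    Nat.card {δ : D H // mm H δ = i} * (i * Nat.card H) := by
  have : Finite (D H) := inferInstance
  exact card_fib {g | mm H (d H g) = i} {δ : D H | mm H δ = i} (d H) (fun e he => he) (i * Nat.card H)
    (fun δ hδ => by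
      have hδ' : mm H δ = i := hδ
      rw [← hδ', ← card_d H δ]
      refine Nat.card_congr (Equiv.subtypeEquivRight fun e => ⟨fun h => h.2, fun h => ⟨?_, h⟩⟩)
      change mm H (d H e) = mm H δ
      rw [h])

lemma cc_conj (g : G) : cc H (d H g) = Nat.card {h : H // g * h * g⁻¹ ∈ H} := by
  rw [cc_d]
  exact Nat.card_congr
    { toFun := fun e => ⟨⟨g⁻¹ * e.1, (l_eq H _ _).1 e.2.1.symm⟩, by
        have h := (r_eq H _ _).1 e.2.2.symm
        have : g * (g⁻¹ * e.1) * g⁻¹ = e.1 * g⁻¹ := by group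
        simp only
        rw [this]; exact h⟩
      invFun := fun h => ⟨g * h.1, ((l_eq H _ _).2 (by
        rw [inv_mul_cancel_left]; exact h.1.2)).symm, ((r_eq H _ _).2 h.2).symm⟩
      left_inv := fun e => Subtype.ext (by simp)
      right_inv := fun h => Subtype.ext (Subtype.ext (by simp)) }

lemma φ_one : φ 1 = 1 := by simp [φ]
lemma φ_two : φ 2 = 1 / 2 := by norm_num [φ, Nat.factorial]
lemma φ_four : φ 4 = 3 / 32 := by norm_num [φ, Nat.factorial]

/-- `P_G(H)` if all double cosets have `1`, `2` or `4` left cosets -/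
lemma P_of {n₂ n₄ : ℕ} (h : ∀ δ : D H, mm H δ = 1 ∨ mm H δ = 2 ∨ mm H δ = 4)
    (h₂ : Nat.card {δ : D H // mm H δ = 2} = n₂) (h₄ : Nat.card {δ : D H // mm H δ = 4} = n₄) :
    P H = (1 / 2) ^ n₂ * (3 / 32) ^ n₄ := by
  classical
  have : Fintype (D H) := Fintype.ofFinite _
  rw [P_eq, ← h₂, ← h₄]
  have e : ∀ δ : D H, φ (mm H δ) = (if mm H δ = 2 then (1 / 2 : ℝ) else 1) *
      (if mm H δ = 4 then (3 / 32 : ℝ) else 1) := by
    intro δ
    rcases h δ with h | h | h
    · rw [h, φ_one]; norm_num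
    · rw [h, φ_two]; norm_num
    · rw [h, φ_four]; norm_num
  rw [Finset.prod_congr rfl fun δ _ => e δ, Finset.prod_mul_distrib, Finset.prod_ite, Finset.prod_ite,
    Finset.prod_const_one, Finset.prod_const_one, mul_one, mul_one, Finset.prod_const,
    Finset.prod_const, Nat.card_eq_fintype_card, Nat.card_eq_fintype_card, Fintype.card_subtype,
    Fintype.card_subtype]

/-- if the core of `H` has index at most `2` in `H`, then no double coset has more than `2` left cosets -/
lemma mm_le_two (h : (H.normalCore.subgroupOf H).index ≤ 2) (δ : D H) :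
    mm H δ = 1 ∨ mm H δ = 2 := by
  obtain ⟨g, rfl⟩ := d_surj H δ
  have h1 : Nat.card (H.normalCore.subgroupOf H) ≤ cc H (d H g) := by
    rw [cc_conj]
    refine Nat.card_le_card_of_injective (fun x => ⟨x.1, ?_⟩) ?_
    · have hx : (x.1 : G) ∈ H.normalCore := x.2
      exact H.normalCore_le (H.normalCore_normal.conj_mem _ hx g)
    · intro x y hxy
      have h1 := congrArg Subtype.val hxy
      exact Subtype.ext h1
  have h2 := (H.normalCore.subgroupOf H).card_mul_index
  have h3 := mm_mul_cc H (d H g)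
  have h4 := mm_pos H (d H g)
  have h5 : 0 < cc H (d H g) := cc_pos H _
  have h6 : mm H (d H g) * cc H (d H g) ≤ 2 * cc H (d H g) := by
    rw [h3, ← h2, mul_comm]
    exact Nat.mul_le_mul h h1
  have h7 := Nat.le_of_mul_le_mul_right h6 h5
  omega

end general

/-! ### the group of order 128 -/

/-- the automorphism `(i, j) ↦ (j, i + 2 j)` -/
def τ (v : ZMod 4 × ZMod 4) : ZMod 4 × ZMod 4 := (v.2, v.1 + 2 * v.2)

/-- the powers of `τ` -/
def act (k : ZMod 8) (v : ZMod 4 × ZMod 4) : ZMod 4 × ZMod 4 := τ^[k.val] v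

lemma act_add : ∀ (k : ZMod 8) (u v : ZMod 4 × ZMod 4), act k (u + v) = act k u + act k v := by
  decide +kernel

lemma act_act : ∀ (k l : ZMod 8) (v : ZMod 4 × ZMod 4), act (k + l) v = act k (act l v) := by
  decide +kernel

lemma act_zero : ∀ (v : ZMod 4 × ZMod 4), act 0 v = v := by decide +kernel

/-- the semidirect product of `C₄ × C₄` and `C₈` -/
@[ext] structure K where
  /-- the component in `C₄ × C₄` -/
  v : ZMod 4 × ZMod 4
  /-- the component in `C₈` -/
  k : ZMod 8

instance : Mul K := ⟨fun a b => ⟨a.v + act a.k b.v, a.k + b.k⟩⟩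
instance : One K := ⟨⟨0, 0⟩⟩
instance : Inv K := ⟨fun a => ⟨-act (-a.k) a.v, -a.k⟩⟩

lemma mul_v (a b : K) : (a * b).v = a.v + act a.k b.v := rfl
lemma mul_k (a b : K) : (a * b).k = a.k + b.k := rfl
lemma one_v : (1 : K).v = 0 := rfl
lemma one_k : (1 : K).k = 0 := rfl
lemma inv_v (a : K) : a⁻¹.v = -act (-a.k) a.v := rfl
lemma inv_k (a : K) : a⁻¹.k = -a.k := rfl

lemma act_zero' (k : ZMod 8) : act k 0 = 0 := by
  have := act_add k 0 0
  rw [add_zero] at this
  exact (add_eq_left.1 this.symm)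

instance : Group K where
  mul_assoc a b c := by
    apply K.ext
    · rw [mul_v, mul_v, mul_v, mul_v, mul_k, act_add, act_act, add_assoc]
    · rw [mul_k, mul_k, mul_k, mul_k, add_assoc]
  one_mul a := by
    apply K.ext
    · rw [mul_v, one_v, one_k, act_zero, zero_add]
    · rw [mul_k, one_k, zero_add]
  mul_one a := by
    apply K.ext
    · rw [mul_v, one_v, act_zero', add_zero]
    · rw [mul_k, one_k, add_zero]
  inv_mul_cancel a := by
    apply K.ext
    · rw [mul_v, inv_v, inv_k, one_v, neg_add_cancel]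
    · rw [mul_k, inv_k, one_k, neg_add_cancel]

/-- the group as a product of sets -/
def Keqv : K ≃ (ZMod 4 × ZMod 4) × ZMod 8 where
  toFun a := (a.v, a.k)
  invFun a := ⟨a.1, a.2⟩
  left_inv _ := rfl
  right_inv _ := rfl

instance : Finite K := Finite.of_equiv _ Keqv.symm

lemma card_K : Nat.card K = 128 := by
  rw [Nat.card_congr Keqv, Nat.card_prod, Nat.card_prod, Nat.card_zmod, Nat.card_zmod]

/-- the subgroup `{(i, 0)}` of order four -/
def H₄ : Subgroup K where
  carrier := {g | g.v.2 = 0 ∧ g.k = 0}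
  one_mem' := ⟨rfl, rfl⟩
  mul_mem' := by
    rintro a b ⟨h1, h2⟩ ⟨h3, h4⟩
    refine ⟨?_, by rw [mul_k, h2, h4, add_zero]⟩
    rw [mul_v, h2, act_zero, Prod.snd_add, h1, h3, add_zero]
  inv_mem' := by
    rintro a ⟨h1, h2⟩
    refine ⟨?_, by rw [inv_k, h2, neg_zero]⟩
    rw [inv_v, h2, neg_zero, act_zero, Prod.snd_neg, h1, neg_zero]

lemma mem_H₄ (g : K) : g ∈ H₄ ↔ g.v.2 = 0 ∧ g.k = 0 := Iff.rfl

/-- the elements of `H₄` -/
def H₄eqv : H₄ ≃ ZMod 4 where
  toFun h := h.1.v.1
  invFun i := ⟨⟨(i, 0), 0⟩, rfl, rfl⟩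
  left_inv := by
    rintro ⟨g, h1, h2⟩
    apply Subtype.ext
    apply K.ext
    · exact Prod.ext rfl h1.symm
    · exact h2.symm
  right_inv _ := rfl

lemma card_H₄ : Nat.card H₄ = 4 := by
  rw [Nat.card_congr H₄eqv, Nat.card_zmod]

lemma conj_v (g h : K) (hh : h ∈ H₄) : (g * h * g⁻¹).v = act g.k h.v := by
  rw [mul_v, mul_v, mul_k, inv_v, hh.2, add_zero]
  have h1 : act g.k (-act (-g.k) g.v) = -g.v := by
    have h2 := act_add g.k (act (-g.k) g.v) (-act (-g.k) g.v)
    rw [add_neg_cancel, act_zero', ← act_act, add_neg_cancel, act_zero] at h2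
    exact (neg_eq_of_add_eq_zero_right h2.symm).symm
  rw [h1]; abel

lemma conj_k (g h : K) (hh : h ∈ H₄) : (g * h * g⁻¹).k = 0 := by
  rw [mul_k, mul_k, inv_k, hh.2]; ring

lemma cc_H₄ (g : K) : cc H₄ (d H₄ g) = Nat.card {i : ZMod 4 // (act g.k (i, 0)).2 = 0} := by
  rw [cc_conj]
  refine Nat.card_congr (Equiv.subtypeEquiv H₄eqv fun h => ?_)
  rw [mem_H₄, conj_v g h h.2, conj_k g h h.2]
  have : h.1.v = (H₄eqv h, 0) := Prod.ext rfl h.2.1
  rw [this]
  simp

lemma count_act : ∀ k : ZMod 8, Fintype.card {i : ZMod 4 // (act k (i, 0)).2 = 0} =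
    if k = 0 ∨ k = 4 then 4 else if k = 2 ∨ k = 6 then 2 else 1 := by
  decide +kernel

lemma mm_H₄ (g : K) : mm H₄ (d H₄ g) =
    if g.k = 0 ∨ g.k = 4 then 1 else if g.k = 2 ∨ g.k = 6 then 2 else 4 := by
  have h1 := mm_mul_cc H₄ (d H₄ g)
  rw [cc_H₄, card_H₄, Nat.card_eq_fintype_card, count_act] at h1
  split_ifs at h1 ⊢ <;> omega

lemma card_k (s : Finset (ZMod 8)) : Nat.card {g : K // g.k ∈ s} = 16 * s.card := by
  have e : {g : K // g.k ∈ s} ≃ (ZMod 4 × ZMod 4) × s :=
    { toFun := fun g => (g.1.v, ⟨g.1.k, g.2⟩)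
      invFun := fun a => ⟨⟨a.1, a.2.1⟩, a.2.2⟩
      left_inv := fun _ => rfl
      right_inv := fun _ => rfl }
  rw [Nat.card_congr e, Nat.card_prod, Nat.card_prod, Nat.card_zmod, Nat.card_eq_fintype_card,
    Fintype.card_coe]

lemma P_H₄ : P H₄ = (1 / 2) ^ 4 * (3 / 32) ^ 4 := by
  apply P_of
  · intro δ
    obtain ⟨g, rfl⟩ := d_surj H₄ δ
    rw [mm_H₄]
    split_ifs <;> simp
  · have h1 := card_mm H₄ 2
    have h2 : Nat.card {g // mm H₄ (d H₄ g) = 2} = 16 * ({2, 6} : Finset (ZMod 8)).card := by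
      rw [← card_k]
      refine Nat.card_congr (Equiv.subtypeEquivRight fun g => ?_)
      rw [mm_H₄]
      generalize g.k = k
      revert k
      decide +kernel
    have h3 : ({2, 6} : Finset (ZMod 8)).card = 2 := by decide
    rw [h2, h3, card_H₄] at h1
    omega
  · have h1 := card_mm H₄ 4
    have h2 : Nat.card {g // mm H₄ (d H₄ g) = 4} = 16 * ({1, 3, 5, 7} : Finset (ZMod 8)).card := by
      rw [← card_k]
      refine Nat.card_congr (Equiv.subtypeEquivRight fun g => ?_)
      rw [mm_H₄]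
      generalize g.k = k
      revert k
      decide +kernel
    have h3 : ({1, 3, 5, 7} : Finset (ZMod 8)).card = 4 := by decide
    rw [h2, h3, card_H₄] at h1
    omega

/-- the square roots of one -/
lemma sq_one : ∀ (v : ZMod 4 × ZMod 4) (k : ZMod 8), k + k = 0 → v + act k v = 0 →
    (∀ u, act k u = u) ∧ ∀ l ∈ ({0, 2, 4, 6} : Finset (ZMod 8)), act l v = v := by
  decide +kernel

lemma comm_of_sq_one (h x : K) (hh : h * h = 1) (hx : x.k ∈ ({0, 2, 4, 6} : Finset (ZMod 8))) :
    x * h = h * x := by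
  have h1 : h.k + h.k = 0 := congrArg K.k hh
  have h2 : h.v + act h.k h.v = 0 := congrArg K.v hh
  obtain ⟨h3, h4⟩ := sq_one h.v h.k h1 h2
  apply K.ext
  · rw [mul_v, mul_v, h4 _ hx, h3, add_comm]
  · rw [mul_k, mul_k, add_comm]

/-- the lower bound for the other subgroups -/
lemma P_ge (H : Subgroup K) (h : (H.normalCore.subgroupOf H).index ≤ 2) : (1 / 2) ^ 16 ≤ P H := by
  have h0 := mm_le_two H h
  have h4 : Nat.card {δ : D H // mm H δ = 4} = 0 := by
    rw [Nat.card_eq_zero]
    left
    refine ⟨fun δ => ?_⟩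
    rcases h0 δ.1 with h | h
    · have := δ.2; omega
    · have := δ.2; omega
  rw [P_of H (fun δ => (h0 δ).imp_right Or.inl) rfl h4, pow_zero, mul_one]
  apply pow_le_pow_of_le_one (by norm_num) (by norm_num)
  have h1 := card_mm H 2
  have hle : Nat.card {g // mm H (d H g) = 2} ≤ 128 := by
    rw [← card_K]
    exact Nat.card_le_card_of_injective _ Subtype.val_injective
  rcases Nat.lt_or_ge (Nat.card H) 4 with h5 | h5
  · have h6 : Nat.card H ∣ 128 := by
      rw [← card_K]
      exact Subgroup.card_subgroup_dvd_card H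
    have h7 : Nat.card H = 1 ∨ Nat.card H = 2 := by
      have h8 : 0 < Nat.card H := Nat.card_pos
      interval_cases hc : Nat.card H
      · left; rfl
      · right; rfl
      · norm_num at h6
    -- elements with `k` even contribute `1`
    have h8 : ∀ g : K, g.k ∈ ({0, 2, 4, 6} : Finset (ZMod 8)) → mm H (d H g) = 1 := by
      intro g hg
      have h9 : cc H (d H g) = Nat.card H := by
        rw [cc_conj]
        refine Nat.card_congr (Equiv.subtypeUnivEquiv fun h => ?_)
        have h10 : (h : K) * h = 1 := by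
          have h11 : (h : K) ^ 2 = 1 := by
            have h12 := pow_card_eq_one' (x := h)
            have h13 : h ^ 2 = 1 := by
              rcases h7 with h7 | h7
              · rw [h7, pow_one] at h12
                rw [h12, one_pow]
              · rw [h7] at h12; exact h12
            exact congrArg Subtype.val h13
          rw [← sq]; exact h11
        rw [comm_of_sq_one h g h10 hg, mul_inv_cancel_right]
        exact h.2
      have h14 := mm_mul_cc H (d H g)
      rw [h9] at h14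
      have h15 : 0 < Nat.card H := Nat.card_pos
      exact Nat.eq_of_mul_eq_mul_right h15 (by rw [h14, one_mul])
    have h16 : Nat.card {g // mm H (d H g) = 2} ≤ 64 := by
      have h17 : Nat.card {g : K // g.k ∈ ({1, 3, 5, 7} : Finset (ZMod 8))} = 64 := by
        rw [card_k]; decide
      rw [← h17]
      refine Nat.card_le_card_of_injective (fun g => ⟨g.1, ?_⟩) ?_
      · have h18 : g.1.k ∉ ({0, 2, 4, 6} : Finset (ZMod 8)) := fun h19 => by
          have := h8 _ h19
          have := g.2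
          omega
        generalize g.1.k = k at h18
        revert k
        decide +kernel
      · intro a b hab
        have h1 := congrArg Subtype.val hab
        exact Subtype.ext h1
    rcases h7 with h7 | h7
    · -- `H` is trivial
      have h19 : Nat.card {δ : D H // mm H δ = 2} = 0 := by
        rw [Nat.card_eq_zero]
        left
        refine ⟨fun δ => ?_⟩
        have h20 := mm_mul_cc H δ.1
        rw [h7] at h20
        have h21 := Nat.eq_one_of_mul_eq_one_right h20
        have := δ.2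
        omega
      omega
    · rw [h7] at h1
      omega
  · have h6 : Nat.card {δ : D H // mm H δ = 2} * 8 ≤ 128 := by
      calc Nat.card {δ : D H // mm H δ = 2} * 8
          ≤ Nat.card {δ : D H // mm H δ = 2} * (2 * Nat.card H) := Nat.mul_le_mul_left _ (by omega)
        _ ≤ 128 := by rw [← h1]; exact hle
    omega

/-- **Disproof.** There is a finite group `G` (a semidirect product of `C₄ × C₄` and `C₈`, of order `128`) such
that for every prime `p` dividing `|G|` and every subgroup `H` of `G` whose core has index at most `p` in `H`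
(in particular for every such cyclic `p`-subgroup) `tp(G) < P_G(H)`. -/
theorem result : ∃ (G : Type) (_ : Group G) (_ : Finite G), Nat.card G = 128 ∧
    ∀ p : ℕ, p.Prime → p ∣ Nat.card G → ∀ H : Subgroup G,
      (H.normalCore.subgroupOf H).index ≤ p → tp G < P H := by
  refine ⟨K, inferInstance, inferInstance, card_K, fun p hp hdvd H hH => ?_⟩
  have h2 : p = 2 := by
    rw [card_K, show 128 = 2 ^ 7 by norm_num] at hdvd
    exact (Nat.prime_dvd_prime_iff_eq hp Nat.prime_two).1 (hp.dvd_of_dvd_pow hdvd)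
  subst h2
  have h3 : tp K ≤ P H₄ := ciInf_le (Set.finite_range _).bddBelow H₄
  have h4 := P_ge H hH
  rw [P_H₄] at h3
  norm_num at h3 h4
  linarith

end Pool.Agent.Results.MP_443384_al.NotPrimeIndex
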